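import Pool.Agent.Y17.N.Defs
import Pool.Agent.Z419.Gen

/-!
# Project Z17N: comparison of the weighted and the unweighted sums
-/

set_option autoImplicit false

namespace Pool.Agent.Z202.N.STAR

open Finset Matrix
open Pool.Agent.Z700 (V3 vec cp cp7 fac pr Ln n0 ep sgl X2 Yd lres xres chi3 chv Fam sq7 be pii wt
  dis od un psp loc hh S_GENb)
open Pool.Agent.Y17.N
open Pool.Agent.Z419.Gen (odd_sum pr_mod sq14 wt_zero)

lemma mem_FixV {P : Finset ℕ} {b : ℤ} : b ∈ FixV P ↔ b ∈ Ioo (-(9 * (pr P : ℤ))) (9 * (pr P : ℤ)) ∧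
    ((b % 12 = 5 ∨ b % 12 = 7) ∧ (b : ZMod 7) = -(2 * be P) ∧
    ∃ y ∈ range (9 * pr P), 9 * (pr P : ℤ) = b ^ 2 + 14 * (y : ℤ) ^ 2 ∧ ∀ p ∈ P, jacobiSym y p = 1) := by
  unfold FixV
  simp only [Finset.mem_filter]

/-- the coefficient -/
def cc (b : ℤ) : ℤ := if b % 4 = 3 then 1 - wt b else -(1 + wt b)

lemma cc_even {b : ℤ} (h4 : b % 4 = 3 ∨ b % 4 = 1) (h9 : ¬ (9 : ℤ) ∣ b) :
    ∃ e : ℤ, cc b = 2 * e ∧ (Odd e → ¬ (3 : ℤ) ∣ b → (b % 12 = 5 ∨ b % 12 = 7)) ∧
      ((b % 12 = 5 ∨ b % 12 = 7) → Odd e) := by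
  by_cases h3 : b % 3 = 0
  · have hw : wt b = chi3 (b / 3) := by
      unfold wt
      rw [if_pos h3]
    have hc : chi3 (b / 3) = 1 ∨ chi3 (b / 3) = -1 := by
      unfold chi3
      have : (b / 3) % 3 ≠ 0 := by
        intro h0
        apply h9
        omega
      split_ifs with h1 h2
      · exact Or.inl rfl
      · exact Or.inr rfl
      · exfalso
        omega
    unfold cc
    rw [hw]
    rcases hc with h | h <;> rw [h] <;> rcases h4 with h4 | h4
    · rw [if_pos h4]
      exact ⟨0, by norm_num, fun h => absurd h (by decide), fun h => by omega⟩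
    · rw [if_neg (by omega)]
      exact ⟨-1, by norm_num, fun _ h => absurd (by omega : (3 : ℤ) ∣ b) h, fun h => by omega⟩
    · rw [if_pos h4]
      exact ⟨1, by norm_num, fun _ h => absurd (by omega : (3 : ℤ) ∣ b) h, fun h => by omega⟩
    · rw [if_neg (by omega)]
      exact ⟨0, by norm_num, fun h => absurd h (by decide), fun h => by omega⟩
  · have hw : wt b = - chi3 b := by
      unfold wt
      rw [if_neg h3]
    unfold cc
    rw [hw]
    unfold chi3
    rcases h4 with h4 | h4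
    · rw [if_pos h4]
      split_ifs with h1 h2
      · exact ⟨1, by norm_num, fun _ _ => by omega, fun _ => by decide⟩
      · exact ⟨0, by norm_num, fun h => absurd h (by decide), fun h => by omega⟩
      · exfalso; omega
    · rw [if_neg (by omega)]
      split_ifs with h1 h2
      · exact ⟨0, by norm_num, fun h => absurd h (by decide), fun h => by omega⟩
      · exact ⟨-1, by norm_num, fun _ _ => by omega, fun _ => by decide⟩
      · exfalso; omega

/-- the factor at three vanishes if `9 ∣ b` -/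
lemma fac_zero {m D : ℕ} {b : ℤ} (hm : m % 3 = 1) (h9 : (9 : ℤ) ∣ b) (hD : (D : ℤ) = 9 * (m : ℤ) - b ^ 2)
    (n : ℕ) : 3 ∈ (D.primeFactors.erase 2).erase 7 ∧ fac (3 * n) D 3 = 0 := by
  obtain ⟨k, rfl⟩ := h9
  obtain ⟨E, hE⟩ : ∃ E : ℕ, (E : ℤ) = (m : ℤ) - 9 * k ^ 2 := by
    have h0 : 0 ≤ (m : ℤ) - 9 * k ^ 2 := by
      have : (0 : ℤ) ≤ D := Int.natCast_nonneg D
      nlinarith
    exact ⟨((m : ℤ) - 9 * k ^ 2).toNat, Int.toNat_of_nonneg h0⟩
  have hDE : D = 3 ^ 2 * E := by
    have : ((D : ℕ) : ℤ) = ((3 ^ 2 * E : ℕ) : ℤ) := by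
      push_cast
      rw [hD, hE]
      ring
    exact_mod_cast this
  have hE3 : E % 3 = 1 := by
    have : (E : ℤ) % 3 = 1 := by omega
    omega
  have hE0 : E ≠ 0 := by rintro rfl; simp at hE3
  have hfac : D.factorization 3 = 2 := by
    rw [hDE, Nat.factorization_mul (by norm_num) hE0, Nat.factorization_pow]
    simp only [Finsupp.add_apply, Finsupp.smul_apply, smul_eq_mul]
    rw [Nat.Prime.factorization_self Nat.prime_three,
      Nat.factorization_eq_zero_of_not_dvd (n := E) (by omega)]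
  refine ⟨?_, ?_⟩
  · rw [Finset.mem_erase, Finset.mem_erase, Nat.mem_primeFactors]
    refine ⟨by norm_num, by norm_num, Nat.prime_three, ?_, ?_⟩
    · rw [hDE]
      exact ⟨3 * E, by ring⟩
    · rw [hDE]
      positivity
  · unfold fac
    rw [if_pos ⟨n, rfl⟩]
    unfold hh
    rw [hfac, if_pos (by decide)]
    have h1 : D / 3 ^ 2 = E := by
      rw [hDE]
      exact Nat.mul_div_cancel_left _ (by norm_num)
    rw [h1, jacobiSym.mod_left]
    have h2 : (-((E : ℕ) : ℤ)) % ((3 : ℕ) : ℤ) = 2 := by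
      push_cast
      omega
    rw [h2]
    norm_num [jacobiSym.at_two]

theorem t_STAR (h : S_GENb) (hI : S_INVO) : S_STAR := by
  intro P hP hne
  classical
  set m : ℕ := pr P with hm
  have hm24 : m % 24 = 1 := pr_mod hP
  let Db : ℤ → ℕ := fun b => (9 * (m : ℤ) - b ^ 2).toNat
  let J : ℤ → Finset ℤ := fun c => (Ioo (-(9 * (m : ℤ))) (9 * (m : ℤ))).filter fun b : ℤ =>
    b % 4 = c ∧ (b : ZMod 7) = -(2 * be P) ∧ 0 < Db b
  have hRG : ∀ (w : ℤ → ℤ) (c : ℤ), ∀ D1 ∈ P.powerset, RG w D1 (P \ D1) c =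
      ∑ b ∈ J c, w b * loc (3 * pr D1) (Db b) := by
    intro w c D1 hD1
    rw [Finset.mem_powerset] at hD1
    have e1 : pr D1 * pr (P \ D1) = m := by
      rw [hm]
      unfold pr
      rw [mul_comm]
      exact Finset.prod_sdiff hD1
    have e2 : be D1 * be (P \ D1) = 2 * be P := by
      unfold be
      have := Finset.prod_sdiff hD1 (f := sq7)
      rw [← this]
      ring
    have e3 : (9 * (pr D1 : ℤ) * (pr (P \ D1) : ℤ)) = 9 * (m : ℤ) := by
      rw [← e1]
      push_cast
      ring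
    unfold RG dis
    rw [e2, e3]
  let I : Finset ℤ := (Ioo (-(9 * (m : ℤ))) (9 * (m : ℤ))).filter fun b : ℤ =>
    (b % 4 = 3 ∨ b % 4 = 1) ∧ (b : ZMod 7) = -(2 * be P) ∧ 0 < Db b
  have hIJ : I = J 3 ∪ J 1 := by
    ext b
    simp only [I, J, Finset.mem_union, Finset.mem_filter]
    tauto
  have hJd : Disjoint (J 3) (J 1) := by
    rw [Finset.disjoint_left]
    intro b hb hb'
    have h1 := (Finset.mem_filter.1 hb).2.1
    have h2 := (Finset.mem_filter.1 hb').2.1
    omega
  have hsum : ∑ D1 ∈ P.powerset, (RG (fun b => 1 - wt b) D1 (P \ D1) 3 -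
      RG (fun b => 1 + wt b) D1 (P \ D1) 1) =
      ∑ b ∈ I, ∑ D1 ∈ P.powerset, cc b * loc (3 * pr D1) (Db b) := by
    rw [Finset.sum_comm]
    refine Finset.sum_congr rfl fun D1 hD1 => ?_
    rw [hRG _ _ D1 hD1, hRG _ _ D1 hD1, hIJ, Finset.sum_union hJd, sub_eq_add_neg,
      ← Finset.sum_neg_distrib]
    congr 1
    · refine Finset.sum_congr rfl fun b hb => ?_
      unfold cc
      rw [if_pos (Finset.mem_filter.1 hb).2.1]
    · refine Finset.sum_congr rfl fun b hb => ?_
      have := (Finset.mem_filter.1 hb).2.1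
      unfold cc
      rw [if_neg (by omega)]
      ring
  have key : ∀ b ∈ I, ∃ n : ℤ, ∑ D1 ∈ P.powerset, cc b * loc (3 * pr D1) (Db b) =
      2 ^ (P.card + 1) * n ∧ (Odd n ↔ b ∈ FixV P) := by
    intro b hb
    obtain ⟨hb0, hb4, hb7, hbD⟩ := Finset.mem_filter.1 hb
    have hDz : ((Db b : ℕ) : ℤ) = 9 * (pr P : ℤ) - b ^ 2 := by
      have h1 : 0 < (9 * (m : ℤ) - b ^ 2) := by
        have : 0 < (9 * (m : ℤ) - b ^ 2).toNat := hbD
        omega
      show (((9 * (m : ℤ) - b ^ 2).toNat : ℕ) : ℤ) = _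
      rw [Int.toNat_of_nonneg h1.le]
    have hfix : b ∈ FixV P ↔ ((b % 12 = 5 ∨ b % 12 = 7) ∧
        ∃ y : ℕ, Db b = 14 * y ^ 2 ∧ ∀ p ∈ P, jacobiSym y p = 1) := by
      rw [mem_FixV]
      constructor
      · rintro ⟨_, h3, _, y, _, hy, hj⟩
        refine ⟨h3, y, ?_, hj⟩
        have : ((Db b : ℕ) : ℤ) = ((14 * y ^ 2 : ℕ) : ℤ) := by
          rw [hDz, hy]
          push_cast
          ring
        exact_mod_cast this
      · rintro ⟨h3, y, hy, hj⟩
        refine ⟨hb0, h3, hb7, y, ?_, ?_, hj⟩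
        · rw [Finset.mem_range]
          have h1 : ((14 * y ^ 2 : ℕ) : ℤ) = 9 * (pr P : ℤ) - b ^ 2 := by rw [← hy, hDz]
          have h2 : 14 * y ^ 2 ≤ 9 * pr P := by
            have : ((14 * y ^ 2 : ℕ) : ℤ) ≤ ((9 * pr P : ℕ) : ℤ) := by
              rw [h1]
              push_cast
              nlinarith
            exact_mod_cast this
          have h4 : 0 < pr P := by omega
          nlinarith
        · have h1 : ((14 * y ^ 2 : ℕ) : ℤ) = 9 * (pr P : ℤ) - b ^ 2 := by rw [← hy, hDz]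
          push_cast at h1
          linarith
    rw [hfix, sq14 hP hbD]
    by_cases h2 : Odd ((Db b).factorization 2)
    · have e1 : ∀ D1 ∈ P.powerset, cc b * loc (3 * pr D1) (Db b) =
          cc b * ((Db b).factorization 7 : ℤ) *
            ∏ l ∈ ((Db b).primeFactors.erase 2).erase 7, fac (3 * pr D1) (Db b) l := by
        intro D1 _
        unfold Pool.Agent.Z700.loc
        rw [if_pos h2]
        ring
      by_cases h9 : (9 : ℤ) ∣ b
      · refine ⟨0, ?_, ?_⟩
        · rw [mul_zero]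
          refine Finset.sum_eq_zero fun D1 hD1 => ?_
          rw [e1 D1 hD1]
          obtain ⟨f1, f2⟩ := fac_zero (m := m) (by omega) h9 hDz (pr D1)
          rw [Finset.prod_eq_zero f1 f2, mul_zero]
        · constructor
          · intro h0
            simp at h0
          · rintro ⟨h3, _⟩
            exfalso
            omega
      · obtain ⟨n, hn, hodd⟩ := h P hP hne b (by rw [Int.odd_iff]; omega) h9 (Db b) hbD hDz h2
        obtain ⟨e, he, he1, he2⟩ := cc_even hb4 h9
        refine ⟨e * ((Db b).factorization 7 : ℤ) * n, ?_, ?_⟩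
        · rw [Finset.sum_congr rfl e1, ← Finset.mul_sum, hn, he]
          ring
        · rw [Int.odd_mul, Int.odd_mul, hodd]
          have e2 : Odd (((Db b).factorization 7 : ℕ) : ℤ) ↔ Odd ((Db b).factorization 7) :=
            Int.odd_coe_nat _
          rw [e2]
          constructor
          · rintro ⟨⟨a1, a2⟩, a3, a4⟩
            exact ⟨he1 a1 a3, h2, a2, a4⟩
          · rintro ⟨a1, _, a2, a3⟩
            exact ⟨⟨he2 a1, a2⟩, by omega, a3⟩
    · refine ⟨0, ?_, ?_⟩
      · have e1 : ∀ D1 ∈ P.powerset, cc b * loc (3 * pr D1) (Db b) = 0 := by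
          intro D1 _
          unfold Pool.Agent.Z700.loc
          rw [if_neg h2, mul_zero]
        rw [Finset.sum_congr rfl e1]
        simp
      · constructor
        · intro h0
          simp at h0
        · rintro ⟨_, h3, _⟩
          exact absurd h3 h2
  choose! nb hnb1 hnb2 using key
  have hpar : Even (∑ b ∈ I, nb b) := by
    rw [← Int.not_odd_iff_even, odd_sum I nb (fun b => b ∈ FixV P) hnb2]
    have e1 : I.filter (fun b => b ∈ FixV P) = FixV P := by
      ext b
      rw [Finset.mem_filter]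
      constructor
      · exact fun h => h.2
      · intro hb
        refine ⟨?_, hb⟩
        obtain ⟨hb0, h3, hb7, y, _, hy, _⟩ := mem_FixV.1 hb
        refine Finset.mem_filter.2 ⟨hb0, by omega, hb7, ?_⟩
        show 0 < (9 * (m : ℤ) - b ^ 2).toNat
        rw [hm, hy]
        have hy0 : (y : ℤ) ≠ 0 := by
          intro h0
          rw [h0] at hy
          -- `b² = 9 m` would make `b` divisible by three
          have h5 : ¬ (3 : ℤ) ∣ b := by omega
          apply h5
          have h4 : (3 : ℤ) ∣ b ^ 2 := ⟨3 * (pr P : ℤ), by linarith⟩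
          exact Int.prime_three.dvd_of_dvd_pow h4
        have : 0 < 14 * (y : ℤ) ^ 2 := by positivity
        omega
    rw [e1, Nat.not_odd_iff_even]
    exact hI P hP hne
  obtain ⟨N, hN⟩ := hpar
  refine ⟨N, ?_⟩
  rw [hsum, Finset.sum_congr rfl hnb1, ← Finset.mul_sum, hN]
  ring

end Pool.Agent.Z202.N.STAR
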